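import Pool.Agent.T9h32.EV.Fin

/-!
# Fontaine–Mazur for representations whose Frobenius eigenvalues are values of characters

Let `K` be a number field and `ρ : G_K → GL_n(F)` a continuous irreducible representation over a
`p`-adic field `F`. Let `ψ_1, …, ψ_r : G_K → F^×` be continuous characters, for example powers of
the cyclotomic character. Suppose that for all places `v` of `K` outside of a set of lower density
less than `1 / n` every eigenvalue of the Frobenius elements at `v` is the product of a root of
unity and one of the numbers `ψ_j(Frob_v)`; the roots of unity and the indices `j` may depend on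
`v` and on the eigenvalue, and different indices may occur at the same place. We prove: for some `j`
the twist `ρ ⊗ ψ_j⁻¹` has finite image. It is a subrepresentation of the zeroth cohomology of a
zero-dimensional smooth projective variety over `K`.

In particular, if for all `v` outside of a set of lower density less than `1 / n` all Frobenius
eigenvalues are of the form `ζ N(v) ^ m` with a root of unity `ζ` and `m` in a fixed finite set of
integers, then a Tate twist of `ρ` is of the form predicted by the conjecture of Fontaine and Mazur.
Nothing is assumed on the ramification of `ρ` (which may be ramified at infinitely many places), at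
the places above `p` (`ρ` need not be de Rham), and at the places in the exceptional set.

The bound `1 / n` cannot be replaced by a larger one if `n` is prime: if `ρ` is induced from a
character of infinite order of a cyclic extension of degree `n` of `K` with finite norm, then all
Frobenius eigenvalues are roots of unity at the places which do not split, and these places have
density `1 - 1 / n`. The condition is on the eigenvalues; for conditions on the traces the
corresponding bound is `1 / n ^ 2`.

Proof. By Chebotarev's theorem over `K` (from the library) the Haar measure of the closed set `X` of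
all `g` whose eigenvalues are values of the characters up to roots of unity (of bounded order) is
larger than `1 - 1 / n`. The zero sets of polynomials in the matrix coefficients form a Noetherian
family of closed sets, and it follows that there is an open normal subgroup `U` such that each zero
set contains each coset of `U` completely or up to a null set. The stabilizer, up to isomorphism, of
a simple `U`-subspace of the space over an algebraic closure has index at most `n`, so that it
contains an element `g` with `g U ⊆ X`, and there is a simple `U`-subspace `W` which is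
stable under `g`. The trace of `g u` on `W` is a linear combination of the `ψ_j(u)` for all `u` in
`U`. By Burnside's theorem `U` acts on `W` by one of the `ψ_j`, and by irreducibility on the whole
space.
-/

set_option autoImplicit false

namespace Pool.Agent.T9h32.Old.CharacterEigenvalues

open NumberField IsDedekindDomain Filter Matrix

/-- the absolute Galois group of the field `K`, with the Krull topology -/
abbrev AbsGal (K : Type) [Field K] : Type := Gal(AlgebraicClosure K/K)

/-- `g` is an (arithmetic) Frobenius element at a maximal ideal `Q` of the ring of all algebraic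
integers which lies above the finite place `v` of `K`. -/
def IsFrobenius {K : Type} [Field K] [NumberField K] (v : HeightOneSpectrum (𝓞 K))
    (g : AbsGal K) : Prop :=
  ∃ Q : Ideal (𝓞 (AlgebraicClosure K)), Q.IsMaximal ∧
    Q.comap (algebraMap (𝓞 K) (𝓞 (AlgebraicClosure K))) = v.asIdeal ∧
    ∀ x : 𝓞 (AlgebraicClosure K), g • x - x ^ Ideal.absNorm v.asIdeal ∈ Q

/-- the finite places of `K` whose norm is at most `x` -/
def placesUpTo (K : Type) [Field K] [NumberField K] (x : ℕ) : Set (HeightOneSpectrum (𝓞 K)) :=
  {v | Ideal.absNorm v.asIdeal ≤ x}

section
variable {K F : Type} [Field K] [Field F] {n : ℕ}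

/-- the matrix of `g` -/
noncomputable def mat (ρ : AbsGal K →* GL (Fin n) F) (g : AbsGal K) : Matrix (Fin n) (Fin n) F :=
  (ρ g : GL (Fin n) F)

/-- `U` is a subrepresentation of `ρ`. -/
def Stable (ρ : AbsGal K →* GL (Fin n) F) (U : Submodule F (Fin n → F)) : Prop :=
  ∀ g, ∀ x ∈ U, mat ρ g *ᵥ x ∈ U

/-- `ρ` is irreducible (if `n > 0`). -/
def Irreducible (ρ : AbsGal K →* GL (Fin n) F) : Prop :=
  ∀ U, Stable ρ U → U = ⊥ ∨ U = ⊤

/-- All eigenvalues of `g` are products of a root of unity and one of the numbers `ψ j g`. -/
def EigenvaluesAmong (ρ : AbsGal K →* GL (Fin n) F) {r : ℕ} (ψ : Fin r → AbsGal K →* F)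
    (g : AbsGal K) : Prop :=
  ∀ z : AlgebraicClosure F, Polynomial.aeval z (mat ρ g).charpoly = 0 →
    ∃ j, ∃ a : ℕ, 0 < a ∧ z ^ a = (algebraMap F (AlgebraicClosure F) (ψ j g)) ^ a

end

/-- **Frobenius eigenvalues among the values of characters.**

Let `K` be a number field, `p` a prime number, `F` an extension of `ℚ_p` with an absolute value
which extends the `p`-adic one (for example `ℚ_p`, a finite extension, or the completion of an
algebraic closure), `ρ : G_K → GL_n(F)`, `n > 0`, a continuous irreducible representation, and
`ψ j : G_K → F^×` finitely many continuous characters. Let `P` be a set of finite places of `K`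
such that for `v ∈ P` every eigenvalue of every Frobenius element `g` at `v` is the product of a
root of unity and one of the numbers `ψ j g`. Let `θ < 1 / n`, and suppose that for arbitrarily
large `x` there are at most `θ π(x)` places outside of `P` of norm at most `x`.

Then for some `j` there are a finite set `T` with a continuous action of `G_K` and an injective
`G_K`-equivariant linear map from `ρ ⊗ (ψ j)⁻¹` to the space of functions from `T` to `F`. -/
theorem result {K : Type} [Field K] [NumberField K] (p : ℕ) [Fact p.Prime] {F : Type}
    [NormedField F] [NormedAlgebra ℚ_[p] F] {n : ℕ} (hn : 0 < n)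
    (ρ : AbsGal K →* GL (Fin n) F) (hρ : Continuous ρ) (hirr : Irreducible ρ)
    {r : ℕ} (ψ : Fin r → AbsGal K →* F) (hψ : ∀ j, Continuous (ψ j))
    (P : Set (HeightOneSpectrum (𝓞 K)))
    (hP : ∀ v ∈ P, ∀ g, IsFrobenius v g → EigenvaluesAmong ρ ψ g)
    (θ : ℝ) (hθ : θ < 1 / (n : ℝ))
    (hdens : ∃ᶠ x : ℕ in atTop, ((placesUpTo K x \ P).ncard : ℝ) ≤ θ * Nat.primeCounting x) :
    ∃ j, ∃ (T : Type) (_ : Finite T) (_ : MulAction (AbsGal K) T),
      (∀ t : T, IsOpen (MulAction.stabilizer (AbsGal K) t : Set (AbsGal K))) ∧
      ∃ J : (Fin n → F) →ₗ[F] (T → F), Function.Injective J ∧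
        ∀ (g : AbsGal K) (x : Fin n → F) (t : T),
          J ((ψ j g)⁻¹ • (mat ρ g *ᵥ x)) t = J x (g⁻¹ • t) := by
  have hchar : CharZero F := charZero_of_injective_algebraMap (algebraMap ℚ_[p] F).injective
  have hn2 : (0 : ℝ) < (n : ℝ) := by exact_mod_cast hn
  obtain ⟨j, U, hU, hUρ⟩ := Pool.Agent.T9h32.EV.main p hn hρ hirr hψ P hP
    (θ := θ) (by
      rw [mul_comm]
      exact (lt_div_iff₀ hn2).1 hθ) (by
      refine (hdens.and_eventually (Nat.tendsto_primeCounting.eventually_gt_atTop 0)).mono ?_
      rintro N ⟨h1, h3⟩
      have h4 : (0 : ℝ) < (Nat.primeCounting N : ℝ) := by exact_mod_cast h3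
      unfold Pool.Agent.W401.Cheb.dens
      rw [div_le_iff₀ h4]
      exact h1)
  have hN : IsOpen (Pool.Agent.R401.Sup.NN hn ρ (ψ j) (2 * 1) : Set (AbsGal K)) := by
    refine Subgroup.isOpen_mono (H₁ := U) (fun u hu => ?_) hU
    refine ⟨ψ j u, hUρ u hu, ?_⟩
    norm_cast
  obtain ⟨T, hT, hact, hopen, J, hJ, hJeq⟩ :=
    Pool.Agent.R401.Sup4.embed hn ρ hρ (ψ j) (hψ j) 1 hN
  refine ⟨j, T, hT, hact, hopen, J, hJ, fun g x t => ?_⟩
  have h1 := hJeq g x t
  rw [_root_.zpow_neg_one] at h1
  exact h1

end Pool.Agent.T9h32.Old.CharacterEigenvalues
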