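import Pool.Agent.T9h32.ER.Rat

/-!
# Fontaine–Mazur and the ratios of Frobenius eigenvalues

Let `K` be a number field, `F` a `p`-adic field and `ρ : G_K → GL_n(F)` a continuous irreducible
representation. Let `φ_1, …, φ_r : G_K → F^×` be finitely many continuous characters, for example
powers of the cyclotomic character, and `e ≥ 1`. Suppose that for all places `v` of `K` outside of a
set of lower density less than `1 / n` the ratio `z / w` of any two eigenvalues of a Frobenius
element `g` at `v` satisfies `(z / w) ^ e = ζ φ_j(g)` with a root of unity `ζ` and an index `j`,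
which may depend on `v`, `z` and `w`. For example the ratios may be of the form `ζ N(v) ^ m` for `m`
in a fixed finite set of rational numbers. We prove that the image of `ρ` in `PGL_n(F)` is finite.

So the conjecture of Fontaine and Mazur for such `ρ` is reduced to one-dimensional representations:
`ρ` is a twist of a representation with finite image as soon as its determinant is, up to a
character of finite order, the `n`-th power of a character. For `K = ℚ` and `F = ℚ_p` we obtain the
conclusion of the conjecture: if one single Frobenius element at a prime number `q ≠ p` has an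
eigenvalue `ζ q ^ m`, `m` an integer, then the Tate twist `ρ(-m)` has finite image and is a
subrepresentation of the zeroth cohomology of a zero-dimensional smooth projective variety.

Nothing is assumed on the ramification of `ρ`, at the places above `p`, and at the places in the
exceptional set. The bound `1 / n` cannot be replaced by a larger one if `n` is prime: if `ρ` is
induced from a character of a cyclic extension of degree `n` of `K`, then all ratios of Frobenius
eigenvalues are roots of unity at the places which do not split, and these places have density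
`1 - 1 / n`. For `n = 2` and an elliptic curve with complex multiplication these are the places of
supersingular reduction.

Proof. The `n`-th power of an eigenvalue is, up to a root of unity, the product of the determinant
and of `n` values of characters, if `e = 1`. So it suffices to prove: if for the places outside of a
set of lower density less than `1 / n` the `m`-th powers of the Frobenius eigenvalues are among the
values of finitely many characters `ψ_j` up to roots of unity, then an open subgroup acts by
scalars. By Chebotarev's theorem and a dichotomy for the zero sets of the polynomials in the matrix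
coefficients (they contain the cosets of a suitable open normal subgroup `U` completely or up to null
sets) there are an element `g` with this property for all elements of `g U` and a simple
`U`-subspace `W` which is stable under `g`. If all characters are trivial on `c`, then for fixed `u`
the trace of `g u c` on `W` has only finitely many values, and by Burnside's theorem such elements
`c` of `U` act on `W` through a finite group. By the dichotomy the commutators of `U` act trivially
on `W`, so that `U` acts by a character on `W`. By the dichotomy this character is unique, so that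
it is invariant under conjugation and under the automorphisms of the algebraic closure of `F`, and
by irreducibility it is the action of `U` on the whole space. For `K = ℚ` there is only one
`ℤ_p`-extension.
-/

set_option autoImplicit false

namespace Pool.Agent.Results.MP_f68ac8_nt.EigenvalueRatios

open NumberField IsDedekindDomain Filter Matrix

/-- the absolute Galois group of the field `K`, with the Krull topology -/
abbrev AbsGal (K : Type) [Field K] : Type := Gal(AlgebraicClosure K/K)

/-- `g` is an (arithmetic) Frobenius element at a maximal ideal `Q` of the ring of all algebraic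
integers which lies above the finite place `v` of `K`. -/
def IsFrobenius {K : Type} [Field K] [NumberField K] (v : HeightOneSpectrum (𝓞 K))
    (g : AbsGal K) : Prop :=
  ∃ Q : Ideal (𝓞 (AlgebraicClosure K)), Q.IsMaximal ∧
    Q.comap (algebraMap (𝓞 K) (𝓞 (AlgebraicClosure K))) = v.asIdeal ∧
    ∀ x : 𝓞 (AlgebraicClosure K), g • x - x ^ Ideal.absNorm v.asIdeal ∈ Q

/-- the finite places of `K` whose norm is at most `x` -/
def placesUpTo (K : Type) [Field K] [NumberField K] (x : ℕ) : Set (HeightOneSpectrum (𝓞 K)) :=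
  {v | Ideal.absNorm v.asIdeal ≤ x}

/-- the `p`-adic cyclotomic character of the absolute Galois group of `ℚ` -/
noncomputable def chi (p : ℕ) [Fact p.Prime] (g : AbsGal ℚ) : ℚ_[p] :=
  ((cyclotomicCharacter (AlgebraicClosure ℚ) p
    (MulSemiringAction.toRingAut (AbsGal ℚ) (AlgebraicClosure ℚ) g) : ℤ_[p]ˣ) : ℤ_[p])

section
variable {K F : Type} [Field K] [Field F] {n : ℕ}

/-- the matrix of `g` -/
noncomputable def mat (ρ : AbsGal K →* GL (Fin n) F) (g : AbsGal K) : Matrix (Fin n) (Fin n) F :=
  (ρ g : GL (Fin n) F)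

/-- `U` is a subrepresentation of `ρ`. -/
def Stable (ρ : AbsGal K →* GL (Fin n) F) (U : Submodule F (Fin n → F)) : Prop :=
  ∀ g, ∀ x ∈ U, mat ρ g *ᵥ x ∈ U

/-- `ρ` is irreducible (if `n > 0`). -/
def Irreducible (ρ : AbsGal K →* GL (Fin n) F) : Prop :=
  ∀ U, Stable ρ U → U = ⊥ ∨ U = ⊤

/-- `z`, in an algebraic closure of `F`, is an eigenvalue of `g`. -/
def Eigenvalue (ρ : AbsGal K →* GL (Fin n) F) (g : AbsGal K) (z : AlgebraicClosure F) : Prop :=
  Polynomial.aeval z (mat ρ g).charpoly = 0

/-- The `e`-th powers of the ratios of any two eigenvalues of `g` are products of a root of unity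
and one of the numbers `φ j g`. -/
def RatiosAmong (ρ : AbsGal K →* GL (Fin n) F) {r : ℕ} (φ : Fin r → AbsGal K →* F) (e : ℕ)
    (g : AbsGal K) : Prop :=
  ∀ z w, Eigenvalue ρ g z → Eigenvalue ρ g w → ∃ j, ∃ a : ℕ, 0 < a ∧
    ((z / w) ^ e) ^ a = (algebraMap F (AlgebraicClosure F) (φ j g)) ^ a

/-- There is a set `P` of finite places of `K` such that all Frobenius elements at the places in `P`
have the property `RatiosAmong`, and such that for arbitrarily large `x` there are at most `θ π(x)`
places of norm at most `x` outside of `P`, where `π(x)` is the number of primes up to `x`. -/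
def RatiosOutside [NumberField K] (ρ : AbsGal K →* GL (Fin n) F) {r : ℕ}
    (φ : Fin r → AbsGal K →* F) (e : ℕ) (θ : ℝ) : Prop :=
  ∃ P : Set (HeightOneSpectrum (𝓞 K)), (∀ v ∈ P, ∀ g, IsFrobenius v g → RatiosAmong ρ φ e g) ∧
    ∃ᶠ x : ℕ in atTop, ((placesUpTo K x \ P).ncard : ℝ) ≤ θ * Nat.primeCounting x

/-- The image of `ρ` in `PGL_n(F)`, the quotient of `GL_n(F)` by its center, is finite. -/
def FiniteProjectiveImage (ρ : AbsGal K →* GL (Fin n) F) : Prop :=
  (Set.range fun g => (QuotientGroup.mk (ρ g) :
    GL (Fin n) F ⧸ Subgroup.center (GL (Fin n) F))).Finite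

/-- The twist of `ρ` by `c` embeds in the space of functions on a finite set with a continuous
action of the Galois group. -/
def TwistEmbeds (ρ : AbsGal K →* GL (Fin n) F) (c : AbsGal K → F) : Prop :=
  ∃ (T : Type) (_ : Finite T) (_ : MulAction (AbsGal K) T),
    (∀ t : T, IsOpen (MulAction.stabilizer (AbsGal K) t : Set (AbsGal K))) ∧
    ∃ J : (Fin n → F) →ₗ[F] (T → F), Function.Injective J ∧
      ∀ (g : AbsGal K) (x : Fin n → F) (t : T), J (c g • (mat ρ g *ᵥ x)) t = J x (g⁻¹ • t)

end

section proof
variable {K : Type} [Field K] [NumberField K] (p : ℕ) [Fact p.Prime] {F : Type}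
  [NormedField F] [NormedAlgebra ℚ_[p] F] {n : ℕ}

theorem isRoot_of {ρ : AbsGal K →* GL (Fin n) F} {g : AbsGal K} {z : AlgebraicClosure F}
    (hz : (Pool.Agent.T9h32.EV.mE (AlgebraicClosure F) ρ g).charpoly.IsRoot z) :
    Eigenvalue ρ g z := by
  have h1 : (Pool.Agent.T9h32.EV.mE (AlgebraicClosure F) ρ g).charpoly =
      (mat ρ g).charpoly.map (algebraMap F (AlgebraicClosure F)) := Matrix.charpoly_map _ _
  rw [h1, Polynomial.IsRoot.def, Polynomial.eval_map] at hz
  exact hz

theorem isRoot_iff {ρ : AbsGal K →* GL (Fin n) F} {g : AbsGal K} {z : AlgebraicClosure F} :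
    Eigenvalue ρ g z ↔
      (Pool.Agent.T9h32.EV.mE (AlgebraicClosure F) ρ g).charpoly.IsRoot z := by
  have h1 : (Pool.Agent.T9h32.EV.mE (AlgebraicClosure F) ρ g).charpoly =
      (mat ρ g).charpoly.map (algebraMap F (AlgebraicClosure F)) := Matrix.charpoly_map _ _
  rw [h1, Polynomial.IsRoot.def, Polynomial.eval_map]
  exact Iff.rfl

theorem eigen_ne {ρ : AbsGal K →* GL (Fin n) F} {g : AbsGal K} {z : AlgebraicClosure F}
    (hz : Eigenvalue ρ g z) : z ≠ 0 := by
  rintro rfl
  rw [isRoot_iff, Polynomial.IsRoot.def, ← Polynomial.coeff_zero_eq_eval_zero] at hz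
  have h1 := Matrix.det_eq_sign_charpoly_coeff (Pool.Agent.T9h32.EV.mE (AlgebraicClosure F) ρ g)
  rw [hz, mul_zero] at h1
  have h2 : Pool.Agent.T9h32.EV.mE (AlgebraicClosure F) ρ g *
      Pool.Agent.T9h32.EV.mE (AlgebraicClosure F) ρ g⁻¹ = 1 := by
    rw [← Pool.Agent.T9h32.EV.mE_mul, mul_inv_cancel, Pool.Agent.T9h32.EV.mE_one]
  have h3 := congrArg Matrix.det h2
  rw [Matrix.det_mul, h1, zero_mul, Matrix.det_one] at h3
  exact zero_ne_one h3

include p in
theorem scalars (hn : 0 < n) (ρ : AbsGal K →* GL (Fin n) F) (hρ : Continuous ρ)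
    (hirr : Irreducible ρ) {r : ℕ} (φ : Fin r → AbsGal K →* F) (hφ : ∀ j, Continuous (φ j))
    (e : ℕ) (he : 0 < e) (θ : ℝ) (hθ : θ < 1 / (n : ℝ)) (h : RatiosOutside ρ φ e θ) :
    ∃ U : Subgroup (AbsGal K), IsOpen (U : Set (AbsGal K)) ∧ U.Normal ∧
      ∀ u ∈ U, ∃ a : F, mat ρ u = a • (1 : Matrix _ _ F) := by
  obtain ⟨P, hP, hdens⟩ := h
  have hn2 : (0 : ℝ) < (n : ℝ) := by exact_mod_cast hn
  refine Pool.Agent.T9h32.ER.mainR p hn hρ hirr hφ he P (fun v hv g hg z w hz hw => ?_)
    (θ := θ) (by
      rw [mul_comm]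
      exact (lt_div_iff₀ hn2).1 hθ) (by
      refine (hdens.and_eventually (Nat.tendsto_primeCounting.eventually_gt_atTop 0)).mono ?_
      rintro N ⟨h1, h3⟩
      have h4 : (0 : ℝ) < (Nat.primeCounting N : ℝ) := by exact_mod_cast h3
      unfold Pool.Agent.W401.Cheb.dens
      rw [div_le_iff₀ h4]
      exact h1)
  obtain ⟨j, a, ha, h1⟩ := hP v hv g hg z w (isRoot_iff.2 hz) (isRoot_iff.2 hw)
  refine ⟨j, a, ha, ?_⟩
  have hw0 : w ≠ 0 := eigen_ne (isRoot_iff.2 hw)
  rw [div_pow, div_pow, div_eq_iff (pow_ne_zero _ (pow_ne_zero _ hw0))] at h1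
  rw [h1, mul_pow]

theorem finite_proj (ρ : AbsGal K →* GL (Fin n) F) {U : Subgroup (AbsGal K)}
    (hU : IsOpen (U : Set (AbsGal K))) (hUn : U.Normal)
    (hs : ∀ u ∈ U, ∃ a : F, mat ρ u = a • (1 : Matrix _ _ F)) : FiniteProjectiveImage ρ := by
  have hfin : Finite (AbsGal K ⧸ U) := Subgroup.quotient_finite_of_isOpen _ hU
  have hle : U ≤ (Subgroup.center (GL (Fin n) F)).comap ρ := by
    intro u hu
    obtain ⟨a, ha⟩ := hs u hu
    rw [Subgroup.mem_comap, Subgroup.mem_center_iff]
    intro M
    apply Units.ext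
    have h1 : ((ρ u : GL (Fin n) F) : Matrix (Fin n) (Fin n) F) = a • 1 := ha
    rw [Units.val_mul, Units.val_mul, h1, mul_smul_comm, smul_mul_assoc, mul_one, one_mul]
  let f : AbsGal K ⧸ U → GL (Fin n) F ⧸ Subgroup.center (GL (Fin n) F) :=
    QuotientGroup.map U (Subgroup.center (GL (Fin n) F)) ρ hle
  refine (Set.finite_range f).subset ?_
  rintro _ ⟨g, rfl⟩
  exact ⟨QuotientGroup.mk g, rfl⟩

include p in
theorem embeds (hn : 0 < n) (ρ : AbsGal K →* GL (Fin n) F) (hρ : Continuous ρ)
    {U : Subgroup (AbsGal K)} (hU : IsOpen (U : Set (AbsGal K)))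
    (hs : ∀ u ∈ U, ∃ a : F, mat ρ u = a • (1 : Matrix _ _ F)) (ψ : AbsGal K →* F)
    (hψ : Continuous ψ) {b : ℕ} (hb : 0 < b)
    (hdet : ∀ g, (mat ρ g).det ^ b = ψ g ^ (n * b)) : TwistEmbeds ρ fun g => (ψ g)⁻¹ := by
  have hchar : CharZero F := charZero_of_injective_algebraMap (algebraMap ℚ_[p] F).injective
  have hN := Pool.Agent.T9h32.ER.twist_open hn hρ hU hs ψ hψ hb hdet
  obtain ⟨T, hT, hact, hopen, J, hJ, hJeq⟩ :=
    Pool.Agent.R401.Sup4.embed hn ρ hρ ψ hψ 1 hN
  refine ⟨T, hT, hact, hopen, J, hJ, fun g x t => ?_⟩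
  have h1 := hJeq g x t
  rw [_root_.zpow_neg_one] at h1
  exact h1

end proof

/-- **Ratios of Frobenius eigenvalues.**

First part. Let `K` be a number field, `F` an extension of `ℚ_p` with an absolute value which
extends the `p`-adic one, `ρ : G_K → GL_n(F)`, `n > 0`, a continuous irreducible representation,
`φ j : G_K → F^×` finitely many continuous characters, `e > 0` and `θ < 1 / n`. Suppose that at the
places outside of a set of lower density at most `θ` the `e`-th powers of the ratios of the
Frobenius eigenvalues are products of roots of unity and values of the `φ j`. Then `ρ` has finite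
projective image, and `ρ ⊗ ψ⁻¹` embeds in the space of functions on a finite set with a continuous
Galois action for every continuous character `ψ` with `(det ρ) ^ b = ψ ^ (n b)`, `b > 0`.

Second part. Let moreover `K = ℚ` and `F = ℚ_p`, and suppose that one Frobenius element at one place
`v` which does not lie above `p` has an eigenvalue `z` which is the product of `N(v) ^ m`, `m` an
integer, and a root of unity. Then the Tate twist `ρ(-m)` embeds in the space of functions on a
finite set with a continuous Galois action. -/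
theorem result :
    (∀ (K : Type) [Field K] [NumberField K] (p : ℕ) [Fact p.Prime] (F : Type) [NormedField F]
      [NormedAlgebra ℚ_[p] F] (n : ℕ) (_ : 0 < n) (ρ : AbsGal K →* GL (Fin n) F),
      Continuous ρ → Irreducible ρ → ∀ (r : ℕ) (φ : Fin r → AbsGal K →* F),
      (∀ j, Continuous (φ j)) → ∀ e : ℕ, 0 < e → ∀ θ : ℝ, θ < 1 / (n : ℝ) →
      RatiosOutside ρ φ e θ →
      FiniteProjectiveImage ρ ∧ ∀ ψ : AbsGal K →* F, Continuous ψ → ∀ b : ℕ, 0 < b →
        (∀ g, (mat ρ g).det ^ b = ψ g ^ (n * b)) → TwistEmbeds ρ fun g => (ψ g)⁻¹) ∧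
    (∀ (p : ℕ) [Fact p.Prime] (n : ℕ) (_ : 0 < n) (ρ : AbsGal ℚ →* GL (Fin n) ℚ_[p]),
      Continuous ρ → Irreducible ρ → ∀ (r : ℕ) (φ : Fin r → AbsGal ℚ →* ℚ_[p]),
      (∀ j, Continuous (φ j)) → ∀ e : ℕ, 0 < e → ∀ θ : ℝ, θ < 1 / (n : ℝ) →
      RatiosOutside ρ φ e θ →
      ∀ v : HeightOneSpectrum (𝓞 ℚ), (p : 𝓞 ℚ) ∉ v.asIdeal → ∀ g, IsFrobenius v g →
      ∀ z, Eigenvalue ρ g z → ∀ (m : ℤ) (b : ℕ), 0 < b →
        z ^ b = ((Ideal.absNorm v.asIdeal : AlgebraicClosure ℚ_[p]) ^ m) ^ b →
        TwistEmbeds ρ fun g => chi p g ^ (-m)) := by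
  constructor
  · intro K _ _ p _ F _ _ n hn ρ hρ hirr r φ hφ e he θ hθ h
    obtain ⟨U, hU, hUn, hs⟩ := scalars p hn ρ hρ hirr φ hφ e he θ hθ h
    exact ⟨finite_proj ρ hU hUn hs, fun ψ hψ b hb hdet => embeds p hn ρ hρ hU hs ψ hψ hb hdet⟩
  · intro p _ n hn ρ hρ hirr r φ hφ e he θ hθ h v hv g hg z hz m b hb hzb
    obtain ⟨U, hU, hUn, hs⟩ := scalars p hn ρ hρ hirr φ hφ e he θ hθ h
    have hfin : Finite (AbsGal ℚ ⧸ U) := Subgroup.quotient_finite_of_isOpen _ hU
    have hfi : U.FiniteIndex := Subgroup.finiteIndex_of_finite_quotient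
    have hk : g ^ U.index ∈ U := Subgroup.pow_index_mem U g
    have hk0 : 0 < U.index := Nat.pos_of_ne_zero hfi.index_ne_zero
    -- the cyclotomic character
    let χ : AbsGal ℚ →* ℚ_[p] := Pool.Agent.R401.Sup3.cyc ℚ p ℚ_[p]
    have hχ : Continuous χ := Pool.Agent.R401.Sup3.continuous_cyc ℚ p ℚ_[p]
    have hχchi : ∀ g, χ g = chi p g := fun g => rfl
    have hχg : χ g = Ideal.absNorm v.asIdeal := Pool.Agent.R401.Sup3.cyc_frob p ℚ_[p] hv hg
    have hχ0 : ∀ g, χ g ≠ 0 := Pool.Agent.R401.Sup.c_ne χ
    have hnorm : 1 < Ideal.absNorm v.asIdeal := by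
      have h1 : Ideal.absNorm v.asIdeal ≠ 1 := by
        rw [Ne, Ideal.absNorm_eq_one_iff]
        exact v.isPrime.ne_top
      have h2 : Ideal.absNorm v.asIdeal ≠ 0 := by
        rw [Ne, Ideal.absNorm_eq_zero_iff]
        exact v.ne_bot
      omega
    -- the determinant
    have h1 : (mat ρ g).det ^ (U.index * b) = ((χ g ^ m) ^ b) ^ (n * U.index) := by
      have h2 := Pool.Agent.T9h32.ER.det_of_eigen hs hk (isRoot_iff.1 hz) (b := b)
        (x := (χ g ^ m) ^ b) (by
          rw [hzb, hχg, map_pow, map_zpow₀, map_natCast])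
      exact h2
    have hcδ : Continuous fun g : AbsGal ℚ =>
        (((Matrix.GeneralLinearGroup.det.comp ρ) g : ℚ_[p]ˣ) : ℚ_[p]) :=
      Continuous.matrix_det (Units.continuous_val.comp hρ)
    let χu : AbsGal ℚ →* ℚ_[p]ˣ := χ.toHomUnits
    obtain ⟨M, hM, hδ⟩ := Pool.Agent.T9h32.ER.char_one (p := p)
      (Matrix.GeneralLinearGroup.det.comp ρ) χu hcδ hχ (g₀ := g) hnorm hχg
      (K := U.index * b) (Nat.mul_pos hk0 hb) (k := m * n) (by
        apply Units.ext
        rw [Units.val_pow_eq_pow_val, Units.val_zpow_eq_zpow_val]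
        have h3 : (mat ρ g).det ^ (U.index * b) = χ g ^ (m * n * ((U.index * b : ℕ) : ℤ)) := by
          rw [h1, ← zpow_natCast (χ g ^ m) b, ← zpow_natCast _ (n * U.index), ← _root_.zpow_mul,
            ← _root_.zpow_mul]
          congr 1
          push_cast
          ring
        exact h3)
    let ψ : AbsGal ℚ →* ℚ_[p] :=
      { toFun := fun g => χ g ^ m
        map_one' := by rw [map_one, _root_.one_zpow]
        map_mul' := fun g h => by rw [map_mul, mul_zpow] }
    have hψ : Continuous ψ := hχ.zpow₀ m fun g => Or.inl (hχ0 g)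
    have h4 := embeds p hn ρ hρ hU hs ψ hψ hM (fun g => by
      have h5 := congrArg Units.val (hδ g)
      rw [Units.val_pow_eq_pow_val, Units.val_zpow_eq_zpow_val] at h5
      have h6 : (mat ρ g).det ^ M = χ g ^ (m * n * (M : ℤ)) := h5
      show (mat ρ g).det ^ M = (χ g ^ m) ^ (n * M)
      rw [h6, ← zpow_natCast _ (n * M), ← _root_.zpow_mul]
      congr 1
      push_cast
      ring)
    have h7 : (fun g => (ψ g)⁻¹) = fun g => chi p g ^ (-m) := by
      funext g
      show (χ g ^ m)⁻¹ = chi p g ^ (-m)
      rw [hχchi, _root_.zpow_neg]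
    rw [h7] at h4
    exact h4

end Pool.Agent.Results.MP_f68ac8_nt.EigenvalueRatios
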