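import Pool.Agent.T9h32.FP.All

/-!
# Finitely many test primes in a sparse set which splits completely in an infinite unramified extension

Let `f` be any function. There is a sequence `T` of prime numbers, growing faster than prescribed by `f`,
all of which split completely in a totally real field `L` of infinite degree, Galois and unramified at all
finite places over a real quadratic field `k`, such that for every prime number `p`, every dimension `n`,
every degree `d`, every finite set `S` of primes, every finite set `M` of exponents and every `i₀` there is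
a number `m` such that the following holds for all number fields `K` of degree at most `d` unramified
outside `S` and all continuous representations `ρ : G_K → GL_n(ℚ_p)` unramified outside `S`. Conditions
are only imposed at the Frobenius elements above the finitely many primes `T i` with `i₀ ≤ i < m`, `T i ∉ S`,
`T i ≠ p`; nothing is assumed at the places above `p`.

* If these Frobenius elements have finite order in `ρ`, then `ρ` has finite image.
* If `ρ` is irreducible and the eigenvalues of these Frobenius elements are `ζ (T i) ^ w` with roots of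
  unity `ζ` and `w ∈ M`, then `ρ` is a Tate twist of a representation with finite image.
* If `ρ'` is another such representation and at each of these Frobenius elements `ρ` and `ρ'` have the same
  characteristic polynomial after raising to some power, then `ρ` and `ρ'` have equal traces on an open
  subgroup `U`, and there is a nonzero `U`-equivariant map from a `U`-stable subspace of `ρ'` to `ρ`.
  (So if `ρ` is irreducible and `ρ'` comes from geometry, then `ρ` comes from geometry.)

In particular, for all `p` and `n` there is a finite set of primes, namely `T 0, ..., T (m - 1)`, such that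
the maximal extension of `k` which is unramified everywhere and in which these primes split completely is
infinite (it contains `L`), and all continuous representations of its Galois group in `GL_n(ℚ_p)` have
finite image.
-/

set_option autoImplicit false

namespace Pool.Agent.Results.MP_f68ac8_nt.FinitelyManyPrimes

open NumberField IntermediateField Module Polynomial

attribute [local instance 10] DivisionRing.toRatAlgebra

/-- the absolute Galois group of `ℚ` -/
abbrev GQ : Type := Gal(AlgebraicClosure ℚ/ℚ)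

/-- the ring of all algebraic integers -/
abbrev ZBar : Type := 𝓞 (AlgebraicClosure ℚ)

/-- `τ` lies in the inertia group at the maximal ideal `P` of the ring of all algebraic integers -/
def Inertia (P : Ideal ZBar) (τ : GQ) : Prop := ∀ x : ZBar, τ • x - x ∈ P

/-- `σ` is a (geometric) Frobenius element at the maximal ideal `P` above the prime number `q`: it induces
the inverse of `x ↦ x ^ q` on the residue field -/
def Frobenius (q : ℕ) (P : Ideal ZBar) (σ : GQ) : Prop := ∀ x : ZBar, x - (σ • x) ^ q ∈ P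

/-- the `p`-adic cyclotomic character -/
noncomputable def chi (p : ℕ) [Fact p.Prime] (σ : GQ) : ℚ_[p] :=
  ((cyclotomicCharacter (AlgebraicClosure ℚ) p
    (MulSemiringAction.toRingAut GQ (AlgebraicClosure ℚ) σ) : ℤ_[p]ˣ) : ℤ_[p])

/-- `L` is a totally real Galois extension of infinite degree of the real quadratic field `k`, unramified at
all finite places, and a union of finite extensions of `ℚ` whose degrees are powers of two -/
structure UnramifiedTower (k L : IntermediateField ℚ (AlgebraicClosure ℚ)) : Prop where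
  quadratic : finrank ℚ k = 2 ∧ ∃ s ∈ k,
    s ^ 2 = ((17 * 41 * 73 * 89 * 97 * 113 * 137 * 193 * 233 * 241 : ℕ) : AlgebraicClosure ℚ)
  le : k ≤ L
  infinite : ¬ FiniteDimensional ℚ L
  galois : ∀ σ : GQ, (∀ x ∈ k, σ x = x) → ∀ y ∈ L, σ y ∈ L
  unramified : ∀ q : ℕ, q.Prime → ∀ P : Ideal ZBar, P.IsMaximal → (q : ZBar) ∈ P → ∀ τ : GQ,
    (∀ x ∈ k, τ x = x) → Inertia P τ → ∀ y ∈ L, τ y = y
  real : ∀ (φ : L →+* ℂ) (y : L), (φ y).im = 0
  two : ∀ y ∈ L, ∃ m : ℕ, finrank ℚ ℚ⟮y⟯ = 2 ^ m

/-- the prime number `q` is unramified and splits completely in `L`: all inertia elements and all Frobenius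
elements above `q` fix `L` -/
def SplitsCompletely (q : ℕ) (L : IntermediateField ℚ (AlgebraicClosure ℚ)) : Prop :=
  ∀ P : Ideal ZBar, P.IsMaximal → (q : ZBar) ∈ P → ∀ σ : GQ, Inertia P σ ∨ Frobenius q P σ →
    ∀ y ∈ L, σ y = y

/-- the number field `K` is unramified outside the set `S` of prime numbers -/
def FieldUnramified (S : Finset ℕ) (K : IntermediateField ℚ (AlgebraicClosure ℚ)) : Prop :=
  ∀ q : ℕ, q.Prime → q ∉ S → ∀ P : Ideal ZBar, P.IsMaximal → (q : ZBar) ∈ P →
    ∀ τ : GQ, Inertia P τ → ∀ x ∈ K, τ x = x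

section rep

variable {K : IntermediateField ℚ (AlgebraicClosure ℚ)} {p : ℕ} [Fact p.Prime] {n : ℕ}

/-- `ρ` is unramified outside the set `S` of prime numbers -/
def UnramifiedOutside (S : Finset ℕ) (ρ : K.fixingSubgroup →* GL (Fin n) ℚ_[p]) : Prop :=
  ∀ q : ℕ, q.Prime → q ∉ S → ∀ P : Ideal ZBar, P.IsMaximal → (q : ZBar) ∈ P →
    ∀ τ : K.fixingSubgroup, Inertia P τ → ρ τ = 1

/-- every stable subspace is zero or everything -/
def Irreducible (ρ : K.fixingSubgroup →* GL (Fin n) ℚ_[p]) : Prop :=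
  ∀ W : Submodule ℚ_[p] (Fin n → ℚ_[p]),
    (∀ g, ∀ w ∈ W, (ρ g : Matrix (Fin n) (Fin n) ℚ_[p]).mulVec w ∈ W) → W = ⊥ ∨ W = ⊤

/-- every eigenvalue of the matrix `A` is a root of unity times `q ^ w` with `w ∈ M` -/
def TateEigenvalues (M : Finset ℤ) (q : ℕ) (A : Matrix (Fin n) (Fin n) ℚ_[p]) : Prop :=
  ∀ z : AlgebraicClosure ℚ_[p], aeval z A.charpoly = 0 →
    ∃ a : ℕ, 0 < a ∧ ∃ w ∈ M, z ^ a = (q : AlgebraicClosure ℚ_[p]) ^ (w * a : ℤ)

/-- the matrices `A` and `B` have the same characteristic polynomial after raising to some power -/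
def SamePolynomial (A B : Matrix (Fin n) (Fin n) ℚ_[p]) : Prop :=
  ∃ a : ℕ, 0 < a ∧ (A ^ a).charpoly = (B ^ a).charpoly

/-- the property `C` holds for all Frobenius elements of `G_K` above the finitely many prime numbers `T i`
with `i₀ ≤ i < m`, `T i ∉ S` and `T i ≠ p` -/
def AtTestPrimes (T : ℕ → ℕ) (i₀ m : ℕ) (S : Finset ℕ) (p : ℕ) (C : ℕ → K.fixingSubgroup → Prop) :
    Prop :=
  ∀ i : ℕ, i₀ ≤ i → i < m → T i ∉ S → T i ≠ p → ∀ P : Ideal ZBar, P.IsMaximal → (T i : ZBar) ∈ P →
    ∀ σ : K.fixingSubgroup, Frobenius (T i) P σ → C (T i) σ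

/-- on an open subgroup `U` the traces of `ρ` and `ρ'` are equal, and there is a nonzero `U`-equivariant map
from a `U`-stable subspace `W` of `ρ'` to `ρ` -/
def PotentiallyRelated (ρ ρ' : K.fixingSubgroup →* GL (Fin n) ℚ_[p]) : Prop :=
  ∃ U : Subgroup K.fixingSubgroup, IsOpen (U : Set K.fixingSubgroup) ∧
    (∀ u ∈ U, (ρ u : Matrix (Fin n) (Fin n) ℚ_[p]).trace =
      (ρ' u : Matrix (Fin n) (Fin n) ℚ_[p]).trace) ∧
    ∃ (W : Submodule ℚ_[p] (Fin n → ℚ_[p])) (f : (Fin n → ℚ_[p]) →ₗ[ℚ_[p]] (Fin n → ℚ_[p])),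
      (∀ u ∈ U, ∀ w ∈ W, (ρ' u : Matrix (Fin n) (Fin n) ℚ_[p]).mulVec w ∈ W ∧
        f ((ρ' u : Matrix (Fin n) (Fin n) ℚ_[p]).mulVec w) =
          (ρ u : Matrix (Fin n) (Fin n) ℚ_[p]).mulVec (f w)) ∧
      ∃ w ∈ W, f w ≠ 0

end rep

/-- **Main result.** -/
theorem result (f : ℕ → ℕ) :
    ∃ (T : ℕ → ℕ) (k L : IntermediateField ℚ (AlgebraicClosure ℚ)),
      (∀ i, (T i).Prime ∧ T i < T (i + 1) ∧ f (T i) < T (i + 1)) ∧
      UnramifiedTower k L ∧ (∀ i, SplitsCompletely (T i) L) ∧
      (∀ (p : ℕ) [Fact p.Prime] (n d : ℕ) (S : Finset ℕ) (M : Finset ℤ) (i₀ : ℕ), 0 < n →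
        ∃ m : ℕ, ∀ K : IntermediateField ℚ (AlgebraicClosure ℚ), FiniteDimensional ℚ K →
          finrank ℚ K ≤ d → FieldUnramified S K →
          ∀ ρ : K.fixingSubgroup →* GL (Fin n) ℚ_[p], Continuous ρ → UnramifiedOutside S ρ →
            (AtTestPrimes T i₀ m S p (fun _ σ => ∃ a : ℕ, 0 < a ∧ ρ σ ^ a = 1) →
              (Set.range ρ).Finite) ∧
            (Irreducible ρ → AtTestPrimes T i₀ m S p (fun q σ => TateEigenvalues M q
                (ρ σ : Matrix (Fin n) (Fin n) ℚ_[p])) →
              ∃ w ∈ M, (Set.range fun σ : K.fixingSubgroup =>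
                chi p σ ^ w • (ρ σ : Matrix (Fin n) (Fin n) ℚ_[p])).Finite) ∧
            (∀ ρ' : K.fixingSubgroup →* GL (Fin n) ℚ_[p], Continuous ρ' → UnramifiedOutside S ρ' →
              AtTestPrimes T i₀ m S p (fun _ σ => SamePolynomial
                (ρ σ : Matrix (Fin n) (Fin n) ℚ_[p]) (ρ' σ)) →
              PotentiallyRelated ρ ρ')) ∧
      (∀ (p : ℕ) [Fact p.Prime] (n : ℕ), 0 < n → ∃ m : ℕ,
        ∀ ρ : k.fixingSubgroup →* GL (Fin n) ℚ_[p], Continuous ρ → UnramifiedOutside ∅ ρ →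
          (∀ i < m, ∀ P : Ideal ZBar, P.IsMaximal → (T i : ZBar) ∈ P →
            ∀ σ : k.fixingSubgroup, Frobenius (T i) P σ → ∃ a : ℕ, 0 < a ∧ ρ σ ^ a = 1) →
          (Set.range ρ).Finite) := by
  obtain ⟨T, k, L, hT1, hT2, htow, hrep⟩ := Pool.Agent.T9h32.FP.all_main f
  have hpart : ∀ (p : ℕ) [Fact p.Prime] (n d : ℕ) (S : Finset ℕ) (M : Finset ℤ) (i₀ : ℕ), 0 < n →
        ∃ m : ℕ, ∀ K : IntermediateField ℚ (AlgebraicClosure ℚ), FiniteDimensional ℚ K →
          finrank ℚ K ≤ d → FieldUnramified S K →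
          ∀ ρ : K.fixingSubgroup →* GL (Fin n) ℚ_[p], Continuous ρ → UnramifiedOutside S ρ →
            (AtTestPrimes T i₀ m S p (fun _ σ => ∃ a : ℕ, 0 < a ∧ ρ σ ^ a = 1) →
              (Set.range ρ).Finite) ∧
            (Irreducible ρ → AtTestPrimes T i₀ m S p (fun q σ => TateEigenvalues M q
                (ρ σ : Matrix (Fin n) (Fin n) ℚ_[p])) →
              ∃ w ∈ M, (Set.range fun σ : K.fixingSubgroup =>
                chi p σ ^ w • (ρ σ : Matrix (Fin n) (Fin n) ℚ_[p])).Finite) ∧
            (∀ ρ' : K.fixingSubgroup →* GL (Fin n) ℚ_[p], Continuous ρ' → UnramifiedOutside S ρ' →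
              AtTestPrimes T i₀ m S p (fun _ σ => SamePolynomial
                (ρ σ : Matrix (Fin n) (Fin n) ℚ_[p]) (ρ' σ)) →
              PotentiallyRelated ρ ρ') := by
    intro p hp n d S M i₀ hn
    obtain ⟨m, hm⟩ := hrep p n d S M.toList i₀
    refine ⟨m, fun K hK hKd hKS ρ hρ hS => ?_⟩
    have hG : K.fixingSubgroup ∈ Pool.Agent.T9h32.FP.Gd S d := by
      refine ⟨K.fixingSubgroup_isOpen, ?_, ?_⟩
      · rw [← IntermediateField.finrank_eq_fixingSubgroup_index]
        exact hKd
      · intro q hq hqS P hP hqP τ hτ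
        rw [IntermediateField.mem_fixingSubgroup_iff]
        exact hKS q hq hqS P hP hqP τ hτ
    obtain ⟨h1, h2, h3⟩ := hm K.fixingSubgroup hG ρ hρ
      (fun q hq hqS P hP hqP τ h hτ => hS q hq hqS P hP hqP ⟨τ, h⟩ hτ)
    refine ⟨fun hA => ?_, fun hirr hB => ?_, fun ρ' hρ' hS' hC => ?_⟩
    · apply h1
      intro i hi0 him hiS hip P hP hTP σ h hσ
      obtain ⟨a, ha, h4⟩ := hA i hi0 him hiS hip P hP hTP ⟨σ, h⟩ hσ
      exact ⟨a, ha.ne', h4⟩
    · obtain ⟨w, hw, h4⟩ := h2 hirr hn (fun i hi0 him hiS hip P hP hTP σ h hσ z hz => by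
        obtain ⟨a, ha, w, hw, h4⟩ := hB i hi0 him hiS hip P hP hTP ⟨σ, h⟩ hσ z hz
        exact ⟨a, ha, w, Finset.mem_toList.2 hw, h4⟩)
      refine ⟨w, Finset.mem_toList.1 hw, ?_⟩
      refine (h4.image fun A : GL (Fin n) ℚ_[p] => (A : Matrix (Fin n) (Fin n) ℚ_[p])).subset ?_
      rintro _ ⟨σ, rfl⟩
      refine ⟨_, ⟨σ, rfl⟩, ?_⟩
      change (Pool.Agent.Y802.TS.tw ρ (Pool.Agent.Y802.TS.cycU p K.fixingSubgroup) w σ :
        Matrix (Fin n) (Fin n) ℚ_[p]) = _
      rw [Pool.Agent.Y802.TS.tw_val, Units.val_zpow_eq_zpow_val]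
      rfl
    · exact h3 hn ρ' hρ' (fun q hq hqS P hP hqP τ h hτ => hS' q hq hqS P hP hqP ⟨τ, h⟩ hτ)
        (fun i hi0 him hiS hip P hP hTP σ h hσ => by
          obtain ⟨a, ha, h4⟩ := hC i hi0 him hiS hip P hP hTP ⟨σ, h⟩ hσ
          exact ⟨a, ha.ne', h4⟩)
  refine ⟨T, k, L, fun i => ⟨hT1 i, ?_, ?_⟩, ⟨⟨htow.rank, htow.sqrt⟩, htow.le, htow.inf, htow.galois,
    htow.unr, htow.real, htow.two⟩, ?_, hpart, ?_⟩
  · have := hT2 i
    omega
  · have := hT2 i
    have := (hT1 i).pos
    omega
  · intro i P hP hTP σ hσ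
    rcases hσ with hσ | hσ
    · exact htow.unrT i P hP hTP σ hσ
    · exact htow.split i P hP hTP σ hσ
  · intro p hp n hn
    have hkfin : FiniteDimensional ℚ k := FiniteDimensional.of_finrank_pos (by
      rw [htow.rank]; norm_num)
    obtain ⟨S, hS⟩ := Pool.Agent.Y802.TS.almost_unr k.fixingSubgroup k.fixingSubgroup_isOpen
    obtain ⟨m, hm⟩ := hpart p n 2 S ∅ 0 hn
    refine ⟨m, fun ρ hρ hunr hone => ?_⟩
    refine (hm k hkfin htow.rank.le ?_ ρ hρ ?_).1 ?_
    · intro q hq hqS P hP hqP τ hτ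
      have h1 := hS q hq hqS P hP hqP τ hτ
      rw [IntermediateField.mem_fixingSubgroup_iff] at h1
      exact h1
    · intro q hq _ P hP hqP τ hτ
      exact hunr q hq (Finset.notMem_empty q) P hP hqP τ hτ
    · intro i _ him _ _ P hP hTP σ hσ
      exact hone i him P hP hTP σ hσ

end Pool.Agent.Results.MP_f68ac8_nt.FinitelyManyPrimes
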