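import Pool.Agent.T9h32.SV.Tan

/-!
# 2-adic representations into groups with solvable special fibre, ramified at any set of primes

Let `K` be a number field without quadratic extensions which are unramified at all finite primes,
`A` a Noetherian local ring of residue characteristic two with its adic topology, and
`ρ : G_K → GL_n(A)` a continuous representation which is residually unipotent and unramified
above `2`. At every other prime `v` the inertia groups act trivially modulo `2 ^ m` (`m ≥ 1`) and
modulo every power of two dividing `N(v) - 1`, and every `τ` in these groups acts trivially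
modulo `4` or satisfies `(ρ(τ) - 1) ^ 2 = 0`. Any (possibly infinite) set of primes may ramify. We
prove that `ρ` is trivial if `2` is a nonzerodivisor in `A` in the following cases:

* `n = 4` and `ρ` takes values in the similitudes of a unimodular bilinear form whose reduction is
  alternating, for example `GSp_4(A)`, or `GO(q)(A)` for a regular quadratic form `q` in four
  variables;
* `n = 2`;
* any `n`, if the tangent space at the identity of the special fibre of the Zariski closure of the
  image over `A` is contained in a solvable Lie algebra.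

For arbitrary `A` and `m ≥ 2` the image is finite if finitely many primes ramify. For `K = ℚ`, for
number fields of degree `2`, `3`, `4` with absolute discriminant at most `6`, `31`, `158`, and for
all number fields without unramified extensions, `ρ` need not be residually unipotent.

For example, every continuous `ρ : G_ℚ → GSp_4(ℤ_2)` which is trivial modulo `4`, unramified
at `2`, and ramified only at primes which are not `1` modulo `8` is trivial, and so is every
continuous `ρ : G_ℚ → GSp_4(ℤ_2)` which is trivial modulo `2`, unramified at `2`, and ramified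
only at primes which are `3` modulo `4`, with inertia acting unipotently with exponent two.

Proof. Let `I` be the ideal generated by the entries of all `ρ(g) - 1`. If `I ≠ 𝔪 I`, take the
least `k` such that some `ρ(τ) - 1` is not in `𝔪 I`, with `τ` in an inertia group at a prime with
`2 ^ k` exactly dividing `N(v) - 1`. Then `2 ^ k` is not in `𝔪 I`, and for a functional `f` on
`I / 𝔪 I` with `f(2 ^ k) = 1` the map `φ = f(ρ - 1)` is a homomorphism from `G_K` to the Lie algebra
of the special fibre whose image is spanned by the `φ(τ)`, and the tame relation gives that `φ(τ)`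
is a multiple of `[φ(σ), φ(τ)]` for a Frobenius element `σ`. So `φ = 0` if this Lie algebra is
solvable. The Lie algebras of the similitudes of an alternating form in four variables are solvable
in characteristic two, as one sees with the Pfaffian.
-/

set_option autoImplicit false

open NumberField IsLocalRing Matrix

namespace Pool.Agent.Results.MP_f68ac8_nt.SymplecticAtTwo

/-- the absolute Galois group of the field `K`, with the Krull topology -/
abbrev AbsGal (K : Type) [Field K] : Type := Gal(AlgebraicClosure K/K)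

/-- `τ` lies in the inertia group at the ideal `P` of the ring of all algebraic integers. -/
def InInertia {K : Type} [Field K] (P : Ideal (𝓞 (AlgebraicClosure K))) (τ : AbsGal K) : Prop :=
  ∀ x : 𝓞 (AlgebraicClosure K), τ • x - x ∈ P

/-- Every homomorphism with open kernel from the absolute Galois group of `K` to the group `E`
which is trivial on the inertia groups at all maximal ideals of the ring of all algebraic integers
is trivial. -/
def NoUnramified (K : Type) [Field K] (E : Type) [Group E] : Prop :=
  ∀ f : AbsGal K →* E, IsOpen (f.ker : Set (AbsGal K)) →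
    (∀ P : Ideal (𝓞 (AlgebraicClosure K)), P.IsMaximal → ∀ τ, InInertia P τ → f τ = 1) →
    ∀ g, f g = 1

/-- `K` has no quadratic extension which is unramified at all finite primes. -/
def NoUnramifiedQuadratic (K : Type) [Field K] : Prop := NoUnramified K (Multiplicative (ZMod 2))

/-- `K` has no extension which is unramified at all finite primes. -/
def NoUnramifiedExtension (K : Type) [Field K] : Prop := ∀ (E : Type) [Group E], NoUnramified K E

/-- `K` is the field of rational numbers, or has degree `2`, `3` or `4` and absolute discriminant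
at most `6`, `31` or `158`. -/
def SmallDiscriminant (K : Type) [Field K] [NumberField K] : Prop :=
  Module.finrank ℚ K = 1 ∨ (Module.finrank ℚ K = 2 ∧ |discr K| ≤ 6) ∨
    (Module.finrank ℚ K = 3 ∧ |discr K| ≤ 31) ∨ (Module.finrank ℚ K = 4 ∧ |discr K| ≤ 158)

section

variable {K : Type} [Field K] {A : Type} [CommRing A] {n : ℕ}

/-- The reductions of all `ρ g - 1` are nilpotent. -/
def ResiduallyUnipotent [IsLocalRing A] (ρ : AbsGal K →* GL (Fin n) A) : Prop :=
  ∀ g, ∃ M : ℕ, ∀ i j, (((ρ g : Matrix (Fin n) (Fin n) A) - 1) ^ M) i j ∈ maximalIdeal A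

/-- `ρ` is unramified at the maximal ideal `P` of the ring of all algebraic integers. -/
def UnramifiedAt (ρ : AbsGal K →* GL (Fin n) A) (P : Ideal (𝓞 (AlgebraicClosure K))) : Prop :=
  ∀ τ, InInertia P τ → ρ τ = 1

/-- `ρ` is unramified at all primes above `2`. -/
def UnramifiedAboveTwo (ρ : AbsGal K →* GL (Fin n) A) : Prop :=
  ∀ P : Ideal (𝓞 (AlgebraicClosure K)), P.IsMaximal → (2 : 𝓞 (AlgebraicClosure K)) ∈ P →
    UnramifiedAt ρ P

/-- `ρ` is unramified at all primes that do not lie above a prime number in `S`. -/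
def UnramifiedOutside (S : Finset ℕ) (ρ : AbsGal K →* GL (Fin n) A) : Prop :=
  ∀ P : Ideal (𝓞 (AlgebraicClosure K)), P.IsMaximal →
    (∀ l ∈ S, (l : 𝓞 (AlgebraicClosure K)) ∉ P) → UnramifiedAt ρ P

/-- For every prime `v` of `K` which does not lie above `2` the inertia groups at `v` act trivially
modulo `2 ^ m` and modulo all powers of two which divide `N(v) - 1`, and every element of these
inertia groups acts trivially modulo `4`, or unipotently with exponent two. -/
def InertiaCondition [NumberField K] (m : ℕ) (ρ : AbsGal K →* GL (Fin n) A) : Prop :=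
  ∀ P : Ideal (𝓞 (AlgebraicClosure K)), P.IsMaximal → (2 : 𝓞 (AlgebraicClosure K)) ∉ P →
    ∀ τ, InInertia P τ →
      (∀ k : ℕ,
        k ≤ m ∨ 2 ^ k ∣ Ideal.absNorm (P.comap (algebraMap (𝓞 K) (𝓞 (AlgebraicClosure K)))) - 1 →
        ∀ i j, (2 : A) ^ k ∣ ((ρ τ : Matrix (Fin n) (Fin n) A) - 1) i j) ∧
      ((∀ i j, (4 : A) ∣ ((ρ τ : Matrix (Fin n) (Fin n) A) - 1) i j) ∨
        ((ρ τ : Matrix (Fin n) (Fin n) A) - 1) ^ 2 = 0)

variable [IsLocalRing A]

/-- The image consists of similitudes of a unimodular bilinear form whose reduction is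
alternating. -/
def PreservesAlternatingForm (ρ : AbsGal K →* GL (Fin n) A) : Prop :=
  ∃ B : Matrix (Fin n) (Fin n) A, IsUnit B.det ∧ (∀ i, B i i ∈ maximalIdeal A) ∧
    (∀ i j, B i j + B j i ∈ maximalIdeal A) ∧
    ∀ g, ∃ ν : A, (ρ g : Matrix (Fin n) (Fin n) A)ᵀ * B * (ρ g : Matrix (Fin n) (Fin n) A) = ν • B

/-- `Y` is in the tangent space at the identity of the special fibre of the Zariski closure of the
image: it is killed by the differentials at the identity of all polynomials over `A` in the entries
of matrices which vanish on the image. -/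
def IsTangent (ρ : AbsGal K →* GL (Fin n) A) (Y : Matrix (Fin n) (Fin n) (ResidueField A)) : Prop :=
  ∀ F : MvPolynomial (Fin n × Fin n) A,
    (∀ g, MvPolynomial.eval (fun ij => (ρ g : Matrix (Fin n) (Fin n) A) ij.1 ij.2) F = 0) →
    ∑ ij : Fin n × Fin n, residue A (MvPolynomial.eval
      (fun kl => (1 : Matrix (Fin n) (Fin n) A) kl.1 kl.2) (MvPolynomial.pderiv ij F)) *
        Y ij.1 ij.2 = 0

/-- The tangent space at the identity of the special fibre of the Zariski closure of the image is
contained in the first term of a chain of subspaces `V i` such that `V (i + 1)` contains all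
commutators of elements of `V i`, and which ends with zero. (For example the derived series of a
solvable Lie algebra.) -/
def SolvableTangentSpace (ρ : AbsGal K →* GL (Fin n) A) : Prop :=
  ∃ (V : ℕ → Submodule (ResidueField A) (Matrix (Fin n) (Fin n) (ResidueField A))) (r : ℕ),
    (∀ Y, IsTangent ρ Y → Y ∈ V 0) ∧
    (∀ i, ∀ X ∈ V i, ∀ Y ∈ V i, X * Y - Y * X ∈ V (i + 1)) ∧ V r = ⊥

end

theorem result (K : Type) [Field K] [NumberField K] (m : ℕ) (hm : 1 ≤ m)
    (A : Type) [CommRing A] [IsLocalRing A] [IsNoetherianRing A] [TopologicalSpace A]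
    (hA : IsAdic (maximalIdeal A)) (h2A : (2 : A) ∈ maximalIdeal A)
    (n : ℕ) (ρ : AbsGal K →* GL (Fin n) A) (hρ : Continuous ρ)
    (hK : SmallDiscriminant K ∨ NoUnramifiedExtension K ∨
      (NoUnramifiedQuadratic K ∧ ResiduallyUnipotent ρ))
    (hG : n = 2 ∨ (n = 4 ∧ PreservesAlternatingForm ρ) ∨ SolvableTangentSpace ρ)
    (hur : UnramifiedAboveTwo ρ) (hI : InertiaCondition m ρ) :
    ((∀ a : A, 2 ^ (m + 1) * a = 0 → 2 ^ m * a = 0) → ∀ g, ρ g = 1) ∧
    (2 ≤ m → ∀ S : Finset ℕ, (∀ l ∈ S, l.Prime) → UnramifiedOutside S ρ →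
      (Set.range ρ).Finite) := by
  have hp2 : Fact (Nat.Prime 2) := ⟨Nat.prime_two⟩
  have hcts : ∀ N : ℕ, ∀ᶠ g in nhds (1 : AbsGal K), Pool.Agent.TH831.NA.MJ (maximalIdeal A ^ N)
      ((ρ g : Matrix (Fin n) (Fin n) A) - 1) := fun N => Pool.Agent.TH831.NA.cts_memN hA hρ N
  have h2A' : ((2 : ℕ) : A) ∈ maximalIdeal A := by exact_mod_cast h2A
  have hall : Pool.Agent.R417.FK.NoUrAll K ∨ (Pool.Agent.R417.FK.NoUr K 2 ∧
      ResiduallyUnipotent ρ) := by
    rcases hK with (h | h) | h | h
    · exact Or.inl (Pool.Agent.R417.FK.noUrAll_one h)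
    · exact Or.inl (Pool.Agent.R417.FK.noUrAll_small h)
    · exact Or.inl h
    · exact Or.inr h
  have hGood : Pool.Agent.R417.FK.Good ρ := by
    rcases hall with h | ⟨h1, h2⟩
    · exact Pool.Agent.R417.FK.good_all h hcts
    · exact Pool.Agent.R417.FK.good_p (p := 2) h1 h2A' hcts h2
  have hK2 : Pool.Agent.R417.FK.NoUr K 2 := by
    rcases hall with h | ⟨h1, -⟩
    · exact Pool.Agent.R417.FK.noUr_of_all h 2
    · exact h1
  have hur' : ∀ P : Ideal (𝓞 (AlgebraicClosure K)), P.IsMaximal →
      ((2 : ℕ) : 𝓞 (AlgebraicClosure K)) ∈ P → ∀ τ, InInertia P τ → ρ τ = 1 :=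
    fun P hP h2 τ hτ => hur P hP (by exact_mod_cast h2) τ hτ
  have hI' : Pool.Agent.T9h32.SV.InCond 2 m ρ := by
    intro P hP h2 τ hτ
    obtain ⟨h3, h4⟩ := hI P hP (by exact_mod_cast h2) τ hτ
    refine ⟨fun k hk => by exact_mod_cast h3 k hk, ?_⟩
    rcases h4 with h4 | h4
    · refine Or.inl ⟨2, by norm_num, fun i j => ?_⟩
      have h5 : ((2 : ℕ) : A) ^ 2 = 4 := by norm_num
      rw [h5]
      exact h4 i j
    · exact Or.inr h4
  have hm1 : ∀ g, Pool.Agent.TH831.NA.MJ (maximalIdeal A)
      ((ρ g : Matrix (Fin n) (Fin n) A) - 1) := by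
    refine Pool.Agent.R417.FK.cong_of_good hGood _ fun P hP τ hτ => ?_
    by_cases h2P : ((2 : ℕ) : 𝓞 (AlgebraicClosure K)) ∈ P
    · rw [hur' P hP h2P τ hτ, Units.val_one, sub_self]
      exact fun i j => Ideal.zero_mem _
    · intro i j
      have h4 := (hI' P hP h2P τ hτ).1 1 (Or.inl hm) i j
      rw [pow_one] at h4
      exact Ideal.mem_of_dvd _ h4 h2A'
  have hchar : CharP (ResidueField A) 2 := by
    rw [CharP.charP_iff_prime_eq_zero Nat.prime_two, ← map_natCast (residue A),
      residue_eq_zero_iff]
    exact h2A'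
  -- the chain
  obtain ⟨V, r, h0, hV, hr⟩ : ∃ (V : ℕ → Submodule (ResidueField A)
      (Matrix (Fin n) (Fin n) (ResidueField A))) (r : ℕ),
      (∀ f : A → ResidueField A, Pool.Agent.T9h32.SV.Func (Pool.Agent.R417.FK.I0 ρ) f → ∀ g,
        (Matrix.of fun i j => f (((ρ g : Matrix (Fin n) (Fin n) A) - 1) i j)) ∈ V 0) ∧
      (∀ i, ∀ x ∈ V i, ∀ y ∈ V i, x * y - y * x ∈ V (i + 1)) ∧ V r = ⊥ := by
    rcases hG with rfl | ⟨rfl, B, hu, hB1, hB2, hB⟩ | ⟨V, r, h0, hV, hr⟩
    · obtain ⟨V, r, h0, hV, hr⟩ := Pool.Agent.T9h32.SV.solvIn_two (κ := ResidueField A)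
      exact ⟨V, r, fun f _ g => h0 (Set.mem_univ _), hV, hr⟩
    · have halt : Pool.Agent.T9h32.SV.IsAlt ((residue A).mapMatrix B) := by
        intro i j
        rw [RingHom.mapMatrix_apply, Matrix.map_apply, Matrix.map_apply, Matrix.map_apply]
        refine ⟨?_, (residue_eq_zero_iff _).2 (hB1 i)⟩
        rw [eq_neg_iff_add_eq_zero, ← map_add, add_comm]
        exact (residue_eq_zero_iff _).2 (hB2 i j)
      have hu' : IsUnit ((residue A).mapMatrix B).det := by
        rw [← RingHom.map_det]
        exact hu.map _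
      obtain ⟨V, r, h0, hV, hr⟩ := Pool.Agent.T9h32.SV.solvIn_W0 halt hu'
      exact ⟨V, r, fun f hf g => h0 (Pool.Agent.T9h32.SV.fm_mem_W0 hm1 hu hB hf g), hV, hr⟩
    · exact ⟨V, r, fun f hf g => h0 _ (Pool.Agent.T9h32.SV.fm_mem_tang hm1 hf g), hV, hr⟩
  obtain ⟨h1, h2⟩ := Pool.Agent.T9h32.SV.finalF h2A' hcts hGood hK2 hm hur' hI' V r hV hr h0
  refine ⟨fun h => h1 fun a ha => by exact_mod_cast h a (by exact_mod_cast ha), fun hm2 => ?_⟩
  refine h2 ?_
  calc 2 < 2 ^ 2 := by norm_num
    _ ≤ 2 ^ m := Nat.pow_le_pow_right (by norm_num) hm2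

end Pool.Agent.Results.MP_f68ac8_nt.SymplecticAtTwo
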